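import Pool.Agent.Helper36.VC.St

/-!
# Module PRI of project VC (MP_60edf5_lc), for helper36
-/

set_option autoImplicit false

open Cardinal Ordinal Set Filter
open Pool.Agent.Helper65.GS Pool.Agent.Helper36.VC

universe u

namespace Pool.Agent.Helper51.VC

theorem cof_omega {κ lam : Cardinal.{u}} (hκ : (2 : Cardinal.{u}) ^ ℵ₀ = κ) (hl : ℵ₀ ≤ lam)
    (ih : ∀ m < lam, (2 : Cardinal.{u}) ^ m ≤ κ) (hc : Order.cof lam.ord.ToType = ℵ₀) :
    (2 : Cardinal.{u}) ^ lam ≤ κ := by
  obtain ⟨s, hs, hs2⟩ := Order.exists_cof_eq lam.ord.ToType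
  have h1 : ∀ i : s, #(Iic (i : lam.ord.ToType)) < lam := by
    intro i
    rw [← Set.Iio_insert]
    refine mk_insert_le.trans_lt ?_
    exact add_lt_of_lt hl (mk_Iio_toType_ord_lt _) (one_lt_aleph0.trans_le hl)
  have h3 : lam ≤ Cardinal.sum fun i : s => #(Iic (i : lam.ord.ToType)) := by
    have h4 : (⋃ i : s, Iic (i : lam.ord.ToType)) = Set.univ := by
      ext x
      simp only [mem_iUnion, mem_Iic, Set.mem_univ, iff_true]
      obtain ⟨y, hy, hxy⟩ := hs x
      exact ⟨⟨y, hy⟩, hxy⟩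
    calc lam = #(Set.univ : Set lam.ord.ToType) := by rw [mk_univ, mk_toType, card_ord]
      _ = #(⋃ i : s, Iic (i : lam.ord.ToType)) := by rw [h4]
      _ ≤ _ := mk_iUnion_le_sum_mk
  calc (2 : Cardinal.{u}) ^ lam ≤ 2 ^ (Cardinal.sum fun i : s => #(Iic (i : lam.ord.ToType))) :=
        power_le_power_left two_ne_zero h3
    _ = Cardinal.prod fun i : s => 2 ^ #(Iic (i : lam.ord.ToType)) := power_sum _ _
    _ ≤ Cardinal.prod fun _ : s => κ := prod_le_prod _ _ fun i => ih _ (h1 i)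
    _ = κ ^ #s := prod_const' _ _
    _ = κ := by rw [hs2, hc, ← hκ, ← power_mul, aleph0_mul_aleph0]

theorem cof_large {X : Type u} (κ : Cardinal.{u}) (W : Filter X) (hreg : κ.IsRegular)
    (hunc : ℵ₀ < κ) (hX : #X = κ) (hcompl : CardinalInterFilter W κ) (hsat : Saturated W)
    (hnon : ∀ x, {x}ᶜ ∈ W) (hpos : Pos W (Set.univ : Set X)) {lam : Cardinal.{u}} (hlk : lam < κ)
    (ih : ∀ m < lam, (2 : Cardinal.{u}) ^ m ≤ κ)
    (hc : ℵ₀ < Order.cof lam.ord.ToType) : (2 : Cardinal.{u}) ^ lam ≤ κ := by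
  by_contra hcon
  rw [not_le] at hcon
  have hAc : #(lam.ord.ToType) = lam := by rw [mk_toType, card_ord]
  have hBc : #κ.ord.ToType = κ := by rw [mk_toType, card_ord]
  have hBcof : Order.cof κ.ord.ToType = κ := by rw [cof_toType, hreg.cof_ord]
  have hK : ∀ c : lam.ord.ToType, Nonempty (Set (Iio c) ↪ κ.ord.ToType) := by
    intro c
    have h1 : #(Set (Iio c)) ≤ #κ.ord.ToType := by
      rw [mk_set, hBc]
      exact ih _ (mk_Iio_toType_ord_lt c)
    exact h1
  let K : (c : lam.ord.ToType) → (Set (Iio c) ↪ κ.ord.ToType) := fun c => (hK c).some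
  let R : (c : lam.ord.ToType) → Set lam.ord.ToType → Set (Iio c) := fun c x => Subtype.val ⁻¹' x
  have hr : ∀ x : Set lam.ord.ToType, ∃ r : κ.ord.ToType, ∀ c, K c (R c x) < r := by
    intro x
    have h1 : ¬ IsCofinal (range fun c => K c (R c x)) := by
      intro h
      have h2 := Order.cof_le h
      have h3 : #(range fun c => K c (R c x)) ≤ #(lam.ord.ToType) := mk_range_le
      rw [hBcof] at h2
      exact absurd (h2.trans (h3.trans_eq hAc)) (not_le.2 hlk)
    obtain ⟨r, hr⟩ := not_isCofinal_iff.1 h1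
    exact ⟨r, fun c => hr _ ⟨c, rfl⟩⟩
  choose r hr using hr
  have hcard : #κ.ord.ToType < #(Set lam.ord.ToType) := by rw [hBc, mk_set, hAc]; exact hcon
  have hinf : ℵ₀ ≤ #(Set lam.ord.ToType) := by
    refine le_trans ?_ hcard.le
    rw [hBc]
    exact hunc.le
  obtain ⟨r₀, hr₀⟩ := infinite_pigeonhole_card_lt r hcard hinf
  have hemb : Nonempty (X ↪ r ⁻¹' {r₀}) := by
    have h1 : #X ≤ #(r ⁻¹' {r₀}) := (hX.trans hBc.symm).le.trans hr₀.le
    exact h1
  obtain ⟨e⟩ := hemb
  let x : X → Set lam.ord.ToType := fun p => (e p : Set lam.ord.ToType)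
  have hxinj : Function.Injective x := fun p q h => e.injective (Subtype.ext h)
  have hxr : ∀ p c, K c (R c (x p)) < r₀ := by
    intro p c
    have h1 := hr (x p) c
    have h2 : r (x p) = r₀ := (e p).2
    rwa [h2] at h1
  haveI := hcompl
  have hcl : ∀ᶠ q in W, ∀ c, Pos W {q' | K c (R c (x q')) = K c (R c (x q))} := by
    refine (eventually_cardinal_forall (by rw [hAc]; exact hlk)).2 fun c => ?_
    have h1 : ∀ᶠ q in W, ∀ v : Iio r₀, ¬ Pos W {q' | K c (R c (x q')) = v} →
        K c (R c (x q)) ≠ v := by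
      refine (eventually_cardinal_forall (mk_Iio_toType_ord_lt r₀)).2 fun v => ?_
      by_cases hp : Pos W {q' | K c (R c (x q')) = v}
      · exact Eventually.of_forall fun q h => absurd hp h
      · filter_upwards [not_pos.1 hp] with q hq _
        exact hq
    filter_upwards [h1] with q hq
    by_contra hn
    exact hq ⟨_, hxr q c⟩ hn rfl
  haveI : W.NeBot := ⟨fun h => hpos (by rw [h]; exact mem_bot)⟩
  obtain ⟨p, hp⟩ := hcl.exists
  let Dl : lam.ord.ToType → Set X :=
    fun c => {q | (∀ b < c, (b ∈ x p ↔ b ∈ x q)) ∧ ¬ (c ∈ x p ↔ c ∈ x q)}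
  have hdis : ∀ c d q, q ∈ Dl c → q ∈ Dl d → c = d := by
    intro c d q hc hd
    rcases lt_trichotomy c d with h | h | h
    · exact absurd (hd.1 c h) hc.2
    · exact h
    · exact absurd (hc.1 d h) hd.2
  have hcount : {c | Pos W (Dl c)}.Countable := by
    have hinj : InjOn Dl {c | Pos W (Dl c)} := by
      intro c hc d hd h
      obtain ⟨q, hq⟩ := Pos.nonempty (W := W) hc
      exact hdis c d q hq (h ▸ hq)
    have h1 : (Dl '' {c | Pos W (Dl c)}).Countable := by
      apply hsat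
      · rintro C ⟨c, hc, rfl⟩
        exact hc
      · rintro C ⟨c, hc, rfl⟩ D ⟨d, hd, rfl⟩ hCD hpos2
        obtain ⟨q, hq⟩ := Pos.nonempty hpos2
        exact hCD (by rw [hdis c d q hq.1 hq.2])
    exact countable_of_injective_of_countable_image hinj h1
  have hb : ∃ c₀, ∀ c ∈ {c | Pos W (Dl c)}, c < c₀ := by
    apply not_isCofinal_iff.1
    intro h
    exact absurd (Order.cof_le h) (not_le.2 ((le_aleph0_iff_set_countable.2 hcount).trans_lt hc))
  obtain ⟨c₀, hc₀⟩ := hb
  have hnull : ∀ᶠ q in W, ∀ c, c₀ ≤ c → q ∉ Dl c := by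
    refine (eventually_cardinal_forall (by rw [hAc]; exact hlk)).2 fun c => ?_
    by_cases h : c₀ ≤ c
    · have h1 : ¬ Pos W (Dl c) := fun hh => absurd (hc₀ c hh) (not_lt.2 h)
      filter_upwards [not_pos.1 h1] with q hq _
      exact hq
    · exact Eventually.of_forall fun q hh => absurd hh h
  have hfin : ∀ᶠ q in W, q ∉ {q' | K c₀ (R c₀ (x q')) = K c₀ (R c₀ (x p))} := by
    filter_upwards [hnull, hnon p] with q hq hqp hmem
    have h1 : R c₀ (x q) = R c₀ (x p) := (K c₀).injective hmem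
    have hne : x p ≠ x q := fun h => hqp (hxinj h).symm
    have h2 : {c | ¬ (c ∈ x p ↔ c ∈ x q)}.Nonempty := by
      by_contra h
      rw [not_nonempty_iff_eq_empty] at h
      apply hne
      ext c
      by_contra hc
      have h3 : c ∈ {c | ¬ (c ∈ x p ↔ c ∈ x q)} := hc
      rw [h] at h3
      exact h3
    let c := WellFounded.min wellFounded_lt _ h2
    have hcm : c ∈ {c | ¬ (c ∈ x p ↔ c ∈ x q)} := WellFounded.min_mem _ _ h2
    have hcl : ∀ b < c, (b ∈ x p ↔ b ∈ x q) := by
      intro b hb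
      by_contra hn
      exact WellFounded.not_lt_min wellFounded_lt (s := {c | ¬ (c ∈ x p ↔ c ∈ x q)}) hn hb
    have hcc : c₀ ≤ c := by
      by_contra h
      rw [not_le] at h
      apply hcm
      have h3 : (⟨c, h⟩ : Iio c₀) ∈ R c₀ (x q) ↔ (⟨c, h⟩ : Iio c₀) ∈ R c₀ (x p) := by rw [h1]
      exact h3.symm
    exact hq c hcc ⟨hcl, hcm⟩
  exact not_pos.2 hfin (hp c₀)

theorem pPRI : StPRI.{u} := by
  intro X κ W hreg hunc hX hcompl hsat hnon hpos hκ a ha
  have key : ∀ lam : Cardinal.{u}, lam < κ → (2 : Cardinal.{u}) ^ lam ≤ κ := by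
    intro lam
    induction lam using WellFoundedLT.induction with
    | _ lam ih =>
      intro hlk
      have ih' : ∀ m < lam, (2 : Cardinal.{u}) ^ m ≤ κ := fun m hm => ih m hm (hm.trans hlk)
      rcases lt_or_ge lam ℵ₀ with hl | hl
      · exact ((power_lt_aleph0 (nat_lt_aleph0 2) hl).trans hunc).le
      · have h1 : Order.IsSuccLimit lam.ord := isSuccLimit_ord hl
        have h2 : ℵ₀ ≤ Order.cof lam.ord.ToType := by
          rw [cof_toType, aleph0_le_cof_iff, one_lt_cof_iff]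
          exact h1
        rcases h2.eq_or_lt with h3 | h3
        · exact cof_omega hκ hl ih' h3.symm
        · exact cof_large κ W hreg hunc hX hcompl hsat hnon hpos hlk ih' h3
  exact key _ (lt_ord.1 ha)

end Pool.Agent.Helper51.VC
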